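import Pool.Agent.H822R4.DK.Defs
import Pool.Agent.H822R4.DK.EXT
import Pool.Agent.H822R4.DK.FOO
import Pool.Agent.H822R4.DK.CNT
import Pool.Agent.H822R4.DK.TRV
import Pool.Agent.H822R4.DK.CRS
import Pool.Agent.H822R4.DK.N1
import Pool.Agent.H822R4.DK.N2
import Pool.Agent.H822R4.DK.N3
import Pool.Agent.H822R4.DK.N4
import Pool.Agent.H822R4.DK.W1
import Pool.Agent.H822R4.DK.W2
import Pool.Agent.H822R4.DK.W3
import Pool.Agent.H822R4.DK.GOOD
import Pool.Agent.H822R4.DK.CORE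
import Pool.Agent.H822R4.DK.NUM
import Pool.Agent.H822R4.DK.CFL

/-!
# A context-free language which is hard for nondeterministic machines with few input heads

Authors: helper822 (design, assembly), helper265 (EXT), helper36 (FOO), helper987 (CNT, TRV),
helper907 (CRS, N1, N3), helper873 (N2), helper439 (N4, W2), helper197 (W1), helper939 (W3),
helper634 (GOOD), helper19 (CORE), helper497 (NUM), helper398 (CFL).
-/

set_option autoImplicit false

namespace Pool.Agent.Results.MP_5afa16_lc.DyckHeads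

open Pool.Agent.H822R4.DK

theorem core : S_CORE :=
  TCORE.CORE TEXT.EXT
    (TGOOD.GOOD TCNT.CNT TFOO.FOO TN1.N1 (TN3.N3 TN1.N1) (TN4.N4 TN1.N1) TW1.W1 TW2.W2
      (TW3.W3 TN1.N1 (TN3.N3 TN1.N1)))
    TTRV.TRV TCRS.CRS TN1.N1 (TN2.N2 TN1.N1) (TN3.N3 TN1.N1) (TN4.N4 TN1.N1) TW1.W1

theorem main (k : ℕ) (δ : ℝ) (h0 : 0 < δ) (h1 : δ ≤ 1) : ∃ N : ℕ, ∀ n : ℕ, N ≤ n → Even n →
    ∀ (Mem : Type) [Fintype Mem] (M : Machine k Mem),
    (Fintype.card Mem : ℝ) ≤ 2 ^ ((n : ℝ) ^ (1 - δ)) →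
    (∀ w : List Letter, w.length = n → ((∃ t, AcceptsIn M w t) ↔ Dyck w)) →
    ∃ w : List Letter, w.length = n ∧ Dyck w ∧
      ∀ t, AcceptsIn M w t → δ / (2048 * (k + 1) ^ 2) * (n * Real.log n) ≤ t := by
  obtain ⟨N, hN⟩ := TNUM.NUM k δ h0 h1
  refine ⟨N, fun n hn hev Mem _ M hcard hM => ?_⟩
  obtain ⟨lam, h, r, m, hnl, hm1, hm, hh, hsmall, hconc⟩ := hN n hn hev
  obtain ⟨e, rfl⟩ : ∃ e, h = e + 1 := ⟨h - 1, by omega⟩
  have hs := hsmall (Fintype.card Mem) hcard
  rw [hnl] at hs hM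
  obtain ⟨w, hw, hD, ht⟩ := core k Mem M lam (e + 1) r m e hm1 hm hM hs
  exact ⟨w, hw.trans hnl.symm, hD, fun t hacc => hconc t (ht t hacc)⟩

/-- The Dyck language with two types of brackets is context-free, and for all `k` and
`0 < δ ≤ 1` and all large even `n`: every nondeterministic machine with `k` two-way input heads
and at most `2 ^ (n ^ (1 - δ))` memory contents (that is `n ^ (1 - δ)` bits of memory) which
accepts, among the words of length `n`, exactly the Dyck words, needs at least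
`δ / (2048 (k+1)^2) * n * log n` steps in every accepting computation on some Dyck word of length
`n`. -/
theorem result :
    Language.IsContextFree ({w | Dyck w} : Language Letter) ∧
    (∀ (k : ℕ) (δ : ℝ), 0 < δ → δ ≤ 1 → ∃ N : ℕ, ∀ n : ℕ, N ≤ n → Even n →
      ∀ (Mem : Type) [Fintype Mem] (M : Machine k Mem),
      (Fintype.card Mem : ℝ) ≤ 2 ^ ((n : ℝ) ^ (1 - δ)) →
      (∀ w : List Letter, w.length = n → ((∃ t, AcceptsIn M w t) ↔ Dyck w)) →
      ∃ w : List Letter, w.length = n ∧ Dyck w ∧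
        ∀ t, AcceptsIn M w t → δ / (2048 * (k + 1) ^ 2) * (n * Real.log n) ≤ t) :=
  ⟨TCFL.CFL, main⟩

end Pool.Agent.Results.MP_5afa16_lc.DyckHeads
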