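import Pool.Agent.H564R3.CY.Main
import Pool.Agent.H564R3.CY.Embed
import Pool.Agent.H564R3.CY.LinUpper
import Pool.Agent.H564R3.SV.Good
import Pool.Agent.H564R3.TS.Real

/-!
Optimal bracketing (weighted context-free parsing) by pure dynamic programs in polynomial time
needs a table of almost quadratic size.
-/

set_option autoImplicit false

namespace Pool.Agent.Results.MP_5afa16_lc.ParsingTable

open Finset
open scoped NNReal
open Pool.Agent.H564R3.PW (Instr exec syms)
open Pool.Agent.H564R3.TS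
open Pool.Agent.H564R3.SV (good_trop_sum)
open Pool.Agent.H564R3.CY

/-- the triangles of the convex polygon with the vertices `0, ..., n` -/
abbrev Tri (n : ℕ) : Type := Fin (n + 1) × Fin (n + 1) × Fin (n + 1)

/-- a weight (a natural number or infinity) as a tropical number -/
noncomputable def wt (a : WithTop ℕ) : Tropical (WithTop ℝ) :=
  Tropical.trop (a.map (fun k : ℕ => (k : ℝ)))

/-- The (min,+) program `p`, whose constants are real numbers or infinity, writes into register `o`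
the least weight of a triangulation of the convex polygon with the vertices `0, ..., n`, for all
weights of the triangles in the natural numbers and infinity. -/
def SolvesMin {n : ℕ} {ρ : Type} [DecidableEq ρ]
    (p : List (Instr (Tropical (WithTop ℝ)) (Tri n) ρ)) (o : ρ) : Prop :=
  ∀ w : Tri n → WithTop ℕ, exec (fun x => wt (w x)) p o = triSum (fun x => wt (w x))

/-- The program `p` over the nonnegative reals computes the sum over all triangulations of the
products of the weights of the triangles. -/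
def SolvesSum {n : ℕ} {ρ : Type} [DecidableEq ρ]
    (p : List (Instr ℝ≥0 (Tri n) ρ)) (o : ρ) : Prop :=
  ∀ w : Tri n → ℝ≥0, exec w p o = triSum w

theorem lowerMin {n : ℕ} {ρ : Type} [Fintype ρ] [DecidableEq ρ]
    (p : List (Instr (Tropical (WithTop ℝ)) (Tri n) ρ)) (o : ρ) (h : SolvesMin p o)
    (L m r : ℕ) (hm : 1 ≤ m) (hr : 1 ≤ r) (hn : 2 * (L + 1) * m + 1 ≤ n)
    (hL : (8 * r + 1) * 512 ^ r ≤ 2 * L) :
    (m ^ 2) ^ r ≤ (64 * Fintype.card ρ) ^ r * p.length ^ 2 := by
  classical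
  obtain ⟨σ, hσ⟩ := tri_strip L m n hm hn
  obtain ⟨p', hlen, hp'⟩ := exec_subst σ p
  have hL1 : 1 ≤ 2 * L := by
    have h1 : 1 ≤ (8 * r + 1) * 512 ^ r := Nat.mul_pos (by omega) (Nat.pow_pos (by norm_num))
    omega
  have hne : (univ.image (sset (N := 2 * L) (m := m))).Nonempty :=
    ⟨sset (fun _ => ⟨0, hm⟩), mem_image_of_mem _ (mem_univ _)⟩
  have hcard : ∀ A ∈ univ.image (sset (N := 2 * L) (m := m)), A.card = 2 * L := by
    intro A hA
    rw [mem_image] at hA
    obtain ⟨φ, _, rfl⟩ := hA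
    exact strip_card φ
  obtain ⟨g1, g2⟩ := good_trop_sum _ hne (2 * L) hcard p' o (by
    intro w'
    rw [hp', ← strip_sum hL1, ← hσ]
    have h1 := h (fun x => Sum.elim (fun y => ((w' y : ℕ) : WithTop ℕ))
      (fun b : Bool => if b then 0 else ⊤) (σ x))
    have h2 : (fun x => wt (Sum.elim (fun y => ((w' y : ℕ) : WithTop ℕ))
        (fun b : Bool => if b then 0 else ⊤) (σ x))) =
        fun x => Sum.elim (fun y => Tropical.trop (((w' y : ℕ) : ℝ) : WithTop ℝ))
          (fun b : Bool => if b then (1 : Tropical (WithTop ℝ)) else 0) (σ x) := by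
      funext x
      rcases σ x with y | b
      · rfl
      · rcases b with _ | _
        · rfl
        · simp only [Sum.elim_inr, if_true, wt]
          rw [← WithTop.coe_zero, WithTop.map_coe, Nat.cast_zero, WithTop.coe_zero]
          rfl
    rw [h2] at h1
    exact h1)
  rw [← hlen]
  exact strip_lower hm p' o g1 g2 r hr hL

theorem lowerSum {n : ℕ} {ρ : Type} [Fintype ρ] [DecidableEq ρ]
    (p : List (Instr ℝ≥0 (Tri n) ρ)) (o : ρ) (h : SolvesSum p o)
    (L m r : ℕ) (hm : 1 ≤ m) (hr : 1 ≤ r) (hn : 2 * (L + 1) * m + 1 ≤ n)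
    (hL : (8 * r + 1) * 512 ^ r ≤ 2 * L) :
    (m ^ 2) ^ r ≤ (64 * Fintype.card ρ) ^ r * p.length ^ 2 := by
  classical
  obtain ⟨σ, hσ⟩ := tri_strip L m n hm hn
  obtain ⟨p', hlen, hp'⟩ := exec_subst σ p
  have hL1 : 1 ≤ 2 * L := by
    have h1 : 1 ≤ (8 * r + 1) * 512 ^ r := Nat.mul_pos (by omega) (Nat.pow_pos (by norm_num))
    omega
  have hcard : ∀ A ∈ univ.image (sset (N := 2 * L) (m := m)), A.card = 2 * L := by
    intro A hA
    rw [mem_image] at hA
    obtain ⟨φ, _, rfl⟩ := hA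
    exact strip_card φ
  obtain ⟨g1, g2⟩ := good_nn _ (2 * L) hcard p' o (by
    intro w'
    rw [hp', ← strip_sum hL1, ← hσ]
    exact h _)
  rw [← hlen]
  exact strip_lower hm p' o g1 g2 r hr hL

/-- **Optimal bracketing needs an almost quadratic table.** (1) Time-space trade-off for programs
with `S` registers and `T` instructions, for (min,+) programs and for programs over the nonnegative
reals. (2) Programs with `n ^ c` instructions need `n ^ (2 - ε)` registers. (3) The usual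
algorithm with `(n + 1) ^ 2 + 2` registers and `5 (n + 1) ^ 3` instructions. (4) The linear case:
if only the triangles `(i, i + 1, j)` and `(i, j - 1, j)` have a nonzero weight then `n + 3`
registers and `5 (n + 1) ^ 2` instructions suffice. -/
theorem result :
    (∀ (n L m r : ℕ), 1 ≤ m → 1 ≤ r → 2 * (L + 1) * m + 1 ≤ n → (8 * r + 1) * 512 ^ r ≤ 2 * L →
      ∀ (ρ : Type) [Fintype ρ] [DecidableEq ρ],
        (∀ (p : List (Instr (Tropical (WithTop ℝ)) (Tri n) ρ)) (o : ρ), SolvesMin p o →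
          (m ^ 2) ^ r ≤ (64 * Fintype.card ρ) ^ r * p.length ^ 2) ∧
        (∀ (p : List (Instr ℝ≥0 (Tri n) ρ)) (o : ρ), SolvesSum p o →
          (m ^ 2) ^ r ≤ (64 * Fintype.card ρ) ^ r * p.length ^ 2)) ∧
    (∀ (c : ℕ) (ε : ℝ), 0 < ε → ∃ n₀ : ℕ, ∀ n ≥ n₀, ∀ (ρ : Type) [Fintype ρ] [DecidableEq ρ],
        (∀ (p : List (Instr (Tropical (WithTop ℝ)) (Tri n) ρ)) (o : ρ), SolvesMin p o →
          (p.length : ℝ) ≤ (n : ℝ) ^ c → (n : ℝ) ^ (2 - ε) ≤ Fintype.card ρ) ∧
        (∀ (p : List (Instr ℝ≥0 (Tri n) ρ)) (o : ρ), SolvesSum p o →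
          (p.length : ℝ) ≤ (n : ℝ) ^ c → (n : ℝ) ^ (2 - ε) ≤ Fintype.card ρ)) ∧
    (∀ (R : Type) [CommSemiring R] (n : ℕ),
      ∃ (ρ : Type) (_ : Fintype ρ) (_ : DecidableEq ρ) (p : List (Instr R (Tri n) ρ)) (o : ρ),
        Fintype.card ρ = (n + 1) ^ 2 + 2 ∧ p.length ≤ 5 * (n + 1) ^ 3 ∧
        ∀ w : Tri n → R, exec w p o = triSum w) ∧
    (∀ (R : Type) [CommSemiring R] (n : ℕ),
      ∃ (ρ : Type) (_ : Fintype ρ) (_ : DecidableEq ρ) (p : List (Instr R (Tri n) ρ)) (o : ρ),
        Fintype.card ρ = n + 3 ∧ p.length ≤ 5 * (n + 1) ^ 2 ∧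
        ∀ w : Tri n → R,
          (∀ i k j : Fin (n + 1), k.val ≠ i.val + 1 → k.val + 1 ≠ j.val → w (i, k, j) = 0) →
          exec w p o = triSum w) := by
  refine ⟨?_, ?_, ?_, ?_⟩
  · intro n L m r hm hr hn hL ρ _ _
    exact ⟨fun p o h => lowerMin p o h L m r hm hr hn hL,
      fun p o h => lowerSum p o h L m r hm hr hn hL⟩
  · intro c ε hε
    obtain ⟨n₀, h₀⟩ := tri_num c ε hε
    refine ⟨n₀, fun n hn ρ _ _ => ⟨fun p o h hT => ?_, fun p o h hT => ?_⟩⟩
    · exact h₀ n hn _ _ (fun L m r hm hr h1 h2 => lowerMin p o h L m r hm hr h1 h2) hT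
    · exact h₀ n hn _ _ (fun L m r hm hr h1 h2 => lowerSum p o h L m r hm hr h1 h2) hT
  · intro R _ n
    exact tri_upper n
  · intro R _ n
    exact linear_upper n

end Pool.Agent.Results.MP_5afa16_lc.ParsingTable
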